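import Mathlib
import Pool.Agent.H50.SeshDefs
import Pool.Agent.H50.SeshMain

set_option autoImplicit false

namespace Pool.Agent.Results.MP_b1ca72_ag.NinthPoint

open MvPolynomial Pool.Agent.H50.SeshDefs

theorem result : ∃ (r d t : ℕ) (m : Fin r → ℕ), r = 11 ∧ d = 9 ∧ t = 3 ∧
    (∀ i : Fin r, m i = if (i : ℕ) < 8 then 3 else 1) ∧
    ((d + 2).choose 2 : ℤ) - ∑ i, ((m i + 1).choose 2 : ℤ) ≤ max (((t + 1).choose 2 : ℤ) - 2) 0 ∧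
    ∀ G : ℕ → MvPolynomial (Fin r × Fin 3) ℂ, (∀ n, G n ≠ 0) →
      ∃ p : Fin r → Fin 3 → ℂ,
        (∀ n, eval (fun ij : Fin r × Fin 3 => p ij.1 ij.2) (G n) ≠ 0) ∧
        (∀ i j, i ≠ j → LinearIndependent ℂ ![p i, p j]) ∧
        ∃ F : MvPolynomial (Fin 3) ℂ, F.IsHomogeneous d ∧ Squarefree F ∧
          (∀ i, HasMult F (p i) (m i)) ∧
          ∃ x : Fin 3 → ℂ, (∀ i, LinearIndependent ℂ ![x, p i]) ∧ HasMult F x t :=
  ⟨11, 9, 3, ![3, 3, 3, 3, 3, 3, 3, 3, 1, 1, 1], rfl, rfl, rfl, by decide, by decide,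
    H50.SeshMain.main⟩

end Pool.Agent.Results.MP_b1ca72_ag.NinthPoint
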